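import Mathlib

set_option autoImplicit false

namespace Pool.Agent.Lib.MP_2d208d_co.H89

open Finset

variable {V : Type*} [DecidableEq V] (G : SimpleGraph V) [DecidableRel G.Adj]

/-- Degree of `v` inside the vertex set `S`. -/
def dg (S : Finset V) (v : V) : ℕ := (S.filter (fun w => G.Adj v w)).card

/-- Greedy independent subset by decreasing weight. -/
theorem greedy (k : V → ℕ) (A : Finset V) :
    ∃ I ⊆ A, (∀ u ∈ I, ∀ v ∈ I, ¬ G.Adj u v) ∧
      ∀ x ∈ A, x ∉ I → ∃ y ∈ I, G.Adj y x ∧ k x ≤ k y := by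
  induction A using Finset.strongInduction with
  | H A ih =>
    rcases A.eq_empty_or_nonempty with rfl | hne
    · exact ⟨∅, by simp, by simp, by simp⟩
    obtain ⟨y, hy, hmax⟩ := A.exists_max_image k hne
    have hss : A.filter (fun x => x ≠ y ∧ ¬ G.Adj y x) ⊂ A := by
      refine Finset.filter_ssubset.2 ⟨y, hy, by simp⟩
    obtain ⟨I, hIA, hind, hdom⟩ := ih _ hss
    refine ⟨insert y I, ?_, ?_, ?_⟩
    · intro z hz
      rcases Finset.mem_insert.1 hz with rfl | hz
      · exact hy
      · exact (Finset.mem_filter.1 (hIA hz)).1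
    · intro u hu v hv
      rcases Finset.mem_insert.1 hu with hu | hu
      · rcases Finset.mem_insert.1 hv with hv | hv
        · rw [hu, hv]; exact G.irrefl
        · rw [hu]; exact (Finset.mem_filter.1 (hIA hv)).2.2
      · rcases Finset.mem_insert.1 hv with hv | hv
        · rw [hv]; intro h; exact (Finset.mem_filter.1 (hIA hu)).2.2 h.symm
        · exact hind u hu v hv
    · intro x hx hxI
      by_cases h : G.Adj y x
      · exact ⟨y, Finset.mem_insert_self _ _, h, hmax x hx⟩
      · have hxy : x ≠ y := fun e => hxI (e ▸ Finset.mem_insert_self _ _)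
        obtain ⟨z, hz, h1, h2⟩ := hdom x (Finset.mem_filter.2 ⟨hx, hxy, h⟩)
          (fun h' => hxI (Finset.mem_insert_of_mem h'))
        exact ⟨z, Finset.mem_insert_of_mem hz, h1, h2⟩

theorem arith (k e K : ℕ) (hk : 2 ≤ k) (he : k + 1 ≤ e + 2) (hK : k ≤ K) :
    6 * k ≤ 6 + (k + 1) * e + (K + 1) := by
  obtain ⟨j, rfl⟩ : ∃ j, k = j + 2 := ⟨k - 2, by omega⟩
  have h1 : (j + 2 + 1) * (j + 1) ≤ (j + 2 + 1) * e := Nat.mul_le_mul_left _ (by omega)
  have h2 : j ≤ j * j := Nat.le_mul_self j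
  nlinarith

/-- The case of minimum degree at least two. -/
theorem core (S D N : Finset V) (hD : D ⊆ S) (hN : N ⊆ S) (hDN : ∀ v ∈ N, v ∉ D)
    (h2 : ∀ v ∈ S, 2 ≤ dg G S v)
    (hp : ∀ v ∈ N, ∃ u ∈ D, G.Adj u v ∧ dg G S u ≤ dg G S v) :
    ∃ I ⊆ S, (∀ u ∈ I, ∀ v ∈ I, ¬ G.Adj u v) ∧
      (∀ v, v ∈ D ∨ v ∈ N → v ∉ I → ∃ u ∈ I, G.Adj u v) ∧
      6 * I.card + 2 * S.card ≤ 6 * D.card + ∑ v ∈ S, dg G S v := by
  classical
  choose! p hpD hpA hpd using hp
  set k : V → ℕ := fun d => (N.filter (fun v => p v = d)).card with hk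
  set e : V → ℕ := fun v => dg G S v - 2 with he
  have hed : ∀ v ∈ S, dg G S v = e v + 2 := fun v hv => by
    have := h2 v hv
    simp only [he]; omega
  obtain ⟨I0, hI0D, hI0i, hI0d⟩ := greedy G k D
  choose! q hqI hqA hqk using hI0d
  set U := N.filter (fun v => ∀ y ∈ I0, ¬ G.Adj y v) with hU
  obtain ⟨I1, hI1U, hI1i, hI1d⟩ := greedy G (fun _ => 0) U
  set R := D \ I0 with hR
  have hRm : ∀ x ∈ R, x ∈ D ∧ x ∉ I0 := fun x hx => Finset.mem_sdiff.1 hx
  refine ⟨I0 ∪ I1, ?_, ?_, ?_, ?_⟩
  · exact Finset.union_subset (hI0D.trans hD)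
      (hI1U.trans ((Finset.filter_subset _ _).trans hN))
  · intro u hu v hv
    rcases Finset.mem_union.1 hu with hu | hu <;> rcases Finset.mem_union.1 hv with hv | hv
    · exact hI0i u hu v hv
    · exact (Finset.mem_filter.1 (hI1U hv)).2 u hu
    · intro h; exact (Finset.mem_filter.1 (hI1U hu)).2 v hv h.symm
    · exact hI1i u hu v hv
  · intro v hv hvI
    have h0 : v ∉ I0 := fun h => hvI (Finset.mem_union_left _ h)
    have h1 : v ∉ I1 := fun h => hvI (Finset.mem_union_right _ h)
    rcases hv with hv | hv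
    · exact ⟨q v, Finset.mem_union_left _ (hqI v hv h0), hqA v hv h0⟩
    · by_cases hvU : v ∈ U
      · obtain ⟨y, hy, ha, -⟩ := hI1d v hvU h1
        exact ⟨y, Finset.mem_union_right _ hy, ha⟩
      · have : ¬ ∀ y ∈ I0, ¬ G.Adj y v := fun h => hvU (Finset.mem_filter.2 ⟨hv, h⟩)
        push Not at this
        obtain ⟨y, hy, ha⟩ := this
        exact ⟨y, Finset.mem_union_left _ hy, ha⟩
  · -- counting
    have c1 : (I0 ∪ I1).card ≤ I0.card + U.card :=
      (Finset.card_union_le _ _).trans (Nat.add_le_add_left (Finset.card_le_card hI1U) _)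
    have c2 : U.card ≤ ∑ x ∈ R, k x := by
      have hmap : ∀ v ∈ U, p v ∈ R := by
        intro v hv
        obtain ⟨hvN, hv2⟩ := Finset.mem_filter.1 hv
        exact Finset.mem_sdiff.2 ⟨hpD v hvN, fun h => hv2 _ h (hpA v hvN)⟩
      rw [Finset.card_eq_sum_card_fiberwise (f := p) (s := U) (t := R) hmap]
      refine Finset.sum_le_sum fun x _ => Finset.card_le_card ?_
      exact Finset.filter_subset_filter _ (Finset.filter_subset _ _)
    have c3 : D.card = I0.card + R.card := by
      have := Finset.card_sdiff_add_card_eq_card hI0D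
      simp only [hR]; omega
    have c4 : ∑ v ∈ S, dg G S v = ∑ v ∈ S, e v + 2 * S.card := by
      rw [Finset.sum_congr rfl hed, Finset.sum_add_distrib]
      simp [mul_comm]
    have c5 : ∑ d ∈ D, e d + ∑ v ∈ N, e v ≤ ∑ v ∈ S, e v := by
      rw [← Finset.sum_union (Finset.disjoint_right.2 hDN)]
      exact Finset.sum_le_sum_of_subset (Finset.union_subset hD hN)
    have c6 : ∑ d ∈ D, k d * e d ≤ ∑ v ∈ N, e v := by
      rw [← Finset.sum_fiberwise_of_maps_to (s := N) (t := D) (g := p) hpD]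
      refine Finset.sum_le_sum fun d hd => ?_
      have : ∀ v ∈ N.filter (fun v => p v = d), e d ≤ e v := by
        intro v hv
        obtain ⟨hvN, hv2⟩ := Finset.mem_filter.1 hv
        have := hpd v hvN
        rw [hv2] at this
        simp only [he]; omega
      simpa [hk] using Finset.card_nsmul_le_sum _ _ _ this
    have c7 : ∑ d ∈ D, (k d + 1) * e d =
        ∑ d ∈ R, (k d + 1) * e d + ∑ d ∈ I0, (k d + 1) * e d :=
      (Finset.sum_sdiff hI0D).symm
    have c8 : ∑ d ∈ D, (k d + 1) * e d = ∑ d ∈ D, k d * e d + ∑ d ∈ D, e d := by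
      rw [← Finset.sum_add_distrib]
      exact Finset.sum_congr rfl fun d _ => by ring
    -- degree lower bound: children plus any set of neighbours in D
    have hdeg : ∀ d ∈ D, ∀ T ⊆ D, (∀ x ∈ T, G.Adj d x) → k d + T.card ≤ e d + 2 := by
      intro d hd T hT hA
      rw [← hed d (hD hd)]
      have hdis : Disjoint (N.filter (fun v => p v = d)) T :=
        Finset.disjoint_left.2 fun v hv hvT => hDN v (Finset.mem_filter.1 hv).1 (hT hvT)
      simp only [hk, dg]
      rw [← Finset.card_union_of_disjoint hdis]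
      refine Finset.card_le_card fun v hv => ?_
      rcases Finset.mem_union.1 hv with hv | hv
      · obtain ⟨hvN, hv2⟩ := Finset.mem_filter.1 hv
        exact Finset.mem_filter.2 ⟨hN hvN, hv2 ▸ hpA v hvN⟩
      · exact Finset.mem_filter.2 ⟨hD (hT hv), hA v hv⟩
    set B := R.filter (fun x => 2 ≤ k x) with hB
    have c9 : ∑ x ∈ R, 6 * k x ≤
        ∑ x ∈ R, (6 + (k x + 1) * e x + if 2 ≤ k x then k (q x) + 1 else 0) := by
      refine Finset.sum_le_sum fun x hx => ?_
      obtain ⟨hxD, hxI⟩ := hRm x hx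
      split_ifs with h
      · have := hdeg x hxD {q x} (by simpa using hI0D (hqI x hxD hxI))
          (by simpa using (hqA x hxD hxI).symm)
        exact arith _ _ _ h (by simpa using this) (hqk x hxD hxI)
      · omega
    have c10 : ∑ x ∈ R, (6 + (k x + 1) * e x + if 2 ≤ k x then k (q x) + 1 else 0) =
        6 * R.card + ∑ x ∈ R, (k x + 1) * e x + ∑ x ∈ B, (k (q x) + 1) := by
      rw [Finset.sum_add_distrib, Finset.sum_add_distrib, hB, Finset.sum_filter]
      simp [mul_comm]
    have c11 : ∑ x ∈ B, (k (q x) + 1) ≤ ∑ y ∈ I0, (k y + 1) * e y := by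
      have hmap : ∀ x ∈ B, q x ∈ I0 := fun x hx =>
        hqI x (hRm x (Finset.mem_filter.1 hx).1).1 (hRm x (Finset.mem_filter.1 hx).1).2
      rw [← Finset.sum_fiberwise_of_maps_to (s := B) (t := I0) (g := q) hmap]
      refine Finset.sum_le_sum fun y hy => ?_
      have h1 : ∑ x ∈ B.filter (fun x => q x = y), (k (q x) + 1) =
          (B.filter (fun x => q x = y)).card * (k y + 1) := by
        rw [Finset.sum_congr rfl (g := fun _ => k y + 1)]
        · simp
        · intro x hx
          rw [(Finset.mem_filter.1 hx).2]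
      rw [h1, mul_comm]
      refine Nat.mul_le_mul_left _ ?_
      rcases (B.filter (fun x => q x = y)).eq_empty_or_nonempty with h0 | ⟨x, hx⟩
      · simp [h0]
      · have hsub : ∀ z ∈ B.filter (fun x => q x = y), z ∈ D ∧ z ∉ I0 := fun z hz =>
          hRm z (Finset.mem_filter.1 (Finset.mem_filter.1 hz).1).1
        have h3 := hdeg y (hI0D hy) (B.filter (fun x => q x = y)) (fun z hz => (hsub z hz).1)
          (fun z hz => (Finset.mem_filter.1 hz).2 ▸ hqA z (hsub z hz).1 (hsub z hz).2)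
        have h4 : 2 ≤ k x := (Finset.mem_filter.1 (Finset.mem_filter.1 hx).1).2
        have h5 := hqk x (hsub x hx).1 (hsub x hx).2
        rw [(Finset.mem_filter.1 hx).2] at h5
        omega
    have c12 : ∑ x ∈ R, 6 * k x = 6 * ∑ x ∈ R, k x := (Finset.mul_sum _ _ _).symm
    omega

end Pool.Agent.Lib.MP_2d208d_co.H89
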