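import Pool.Agent.Lib.MP_2d208d_co.H89.Core

set_option autoImplicit false

namespace Pool.Agent.Lib.MP_2d208d_co.H89

open Finset

variable {V : Type*} [DecidableEq V] (G : SimpleGraph V) [DecidableRel G.Adj]

/-- The cut form of connectedness of the graph induced on `S`. -/
def Cut (S : Finset V) : Prop :=
  ∀ T ⊆ S, T.Nonempty → T ≠ S → ∃ a ∈ T, ∃ b ∈ S, b ∉ T ∧ G.Adj a b

theorem dg_erase (S : Finset V) (l : V) (hl : l ∈ S) (v : V) :
    dg G S v = dg G (S.erase l) v + if G.Adj v l then 1 else 0 := by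
  unfold dg
  rw [Finset.filter_erase]
  split_ifs with h
  · rw [Finset.card_erase_add_one (Finset.mem_filter.2 ⟨hl, h⟩)]
  · rw [Finset.erase_eq_of_notMem (fun h' => h (Finset.mem_filter.1 h').2)]; rfl

theorem sum_dg_erase (S : Finset V) (l : V) (hl : l ∈ S) :
    ∑ v ∈ S, dg G S v = ∑ v ∈ S.erase l, dg G (S.erase l) v + 2 * dg G S l := by
  rw [← Finset.add_sum_erase S _ hl, Finset.sum_congr rfl (fun v _ => dg_erase G S l hl v),
    Finset.sum_add_distrib, ← Finset.card_filter]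
  have : ((S.erase l).filter (fun v => G.Adj v l)).card = dg G S l := by
    unfold dg
    congr 1
    ext v
    simp only [Finset.mem_filter, Finset.mem_erase]
    exact ⟨fun h => ⟨h.1.2, h.2.symm⟩, fun h => ⟨⟨h.2.ne.symm, h.1⟩, h.2.symm⟩⟩
  omega

omit [DecidableEq V] in
theorem leaf_nbr (S : Finset V) (l : V) (h : dg G S l = 1) :
    ∃ u ∈ S, G.Adj l u ∧ ∀ w ∈ S, G.Adj l w → w = u := by
  obtain ⟨u, hu⟩ := Finset.card_eq_one.1 h
  have h1 : u ∈ S.filter (fun w => G.Adj l w) := hu ▸ Finset.mem_singleton_self u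
  refine ⟨u, (Finset.mem_filter.1 h1).1, (Finset.mem_filter.1 h1).2, fun w hw ha => ?_⟩
  have : w ∈ S.filter (fun w => G.Adj l w) := Finset.mem_filter.2 ⟨hw, ha⟩
  rw [hu] at this
  exact Finset.mem_singleton.1 this

omit [DecidableRel G.Adj] in
theorem cut_erase (S : Finset V) (l u : V) (hl : l ∈ S)
    (hu : ∀ w ∈ S, G.Adj l w → w = u) (hc : Cut G S) : Cut G (S.erase l) := by
  intro T hT hne hTS
  have hTS' : T ⊆ S := hT.trans (Finset.erase_subset _ _)
  have hlT : l ∉ T := fun h => by simpa using hT h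
  by_cases huT : u ∈ T
  · obtain ⟨a, ha, b, hb, hbT, hab⟩ := hc (insert l T) (Finset.insert_subset hl hTS')
      (Finset.insert_nonempty _ _) (fun h => hTS (by rw [← h, Finset.erase_insert hlT]))
    have hb1 : b ∉ T := fun h => hbT (Finset.mem_insert_of_mem h)
    have hb2 : b ≠ l := fun h => hbT (h ▸ Finset.mem_insert_self _ _)
    rcases Finset.mem_insert.1 ha with ha | ha
    · exact absurd ((hu b hb (ha ▸ hab)) ▸ huT) hb1
    · exact ⟨a, ha, b, Finset.mem_erase.2 ⟨hb2, hb⟩, hb1, hab⟩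
  · obtain ⟨a, ha, b, hb, hbT, hab⟩ := hc T hTS' hne (fun h => hlT (h ▸ hl))
    refine ⟨a, ha, b, Finset.mem_erase.2 ⟨fun h => huT ?_, hb⟩, hbT, hab⟩
    exact (hu a (hTS' ha) (h ▸ hab.symm)) ▸ ha

/-- The marked statement: `D` has the budget, `N` must be dominated, `Z` costs nothing. -/
theorem marked (S : Finset V) : ∀ D N Z : Finset V, Cut G S → D ⊆ S → N ⊆ S →
    (∀ v ∈ N, ∃ u ∈ D, G.Adj u v ∧ dg G S u ≤ dg G S v) →
    (∀ v ∈ S, v ∉ D → v ∉ Z → ∃ u ∈ D, G.Adj u v) →
    ∃ I ⊆ S, (∀ u ∈ I, ∀ v ∈ I, ¬ G.Adj u v) ∧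
      (∀ v, v ∈ D ∨ v ∈ N → v ∉ I → ∃ u ∈ I, G.Adj u v) ∧
      6 * (I \ Z).card ≤ 6 * D.card + (∑ v ∈ S, dg G S v - 2 * S.card) := by
  induction S using Finset.strongInduction with
  | H S ih =>
    intro D N Z hc hD hN hp hF
    by_cases h2 : ∀ v ∈ S, 2 ≤ dg G S v
    · obtain ⟨I, h1, h3, h4, h5⟩ := core G S D (N \ D) hD (Finset.sdiff_subset.trans hN)
        (fun v hv => (Finset.mem_sdiff.1 hv).2) h2 (fun v hv => hp v (Finset.mem_sdiff.1 hv).1)
      refine ⟨I, h1, h3, fun v hv hvI => h4 v ?_ hvI, ?_⟩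
      · by_cases h : v ∈ D
        · exact Or.inl h
        · exact Or.inr (Finset.mem_sdiff.2 ⟨hv.resolve_left h, h⟩)
      · have h6 : (I \ Z).card ≤ I.card := Finset.card_le_card Finset.sdiff_subset
        have h7 : 2 * S.card ≤ ∑ v ∈ S, dg G S v := by
          simpa [mul_comm] using Finset.card_nsmul_le_sum S _ 2 h2
        omega
    by_cases h0 : ∃ v ∈ S, dg G S v = 0
    · obtain ⟨v, hv, hv0⟩ := h0
      have hS : {v} = S := by
        by_contra hne
        obtain ⟨a, ha, b, hb, -, hab⟩ := hc {v} (by simpa using hv) (by simp) hne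
        rw [Finset.mem_singleton.1 ha] at hab
        have : b ∈ S.filter (fun w => G.Adj v w) := Finset.mem_filter.2 ⟨hb, hab⟩
        rw [Finset.card_eq_zero.1 hv0] at this
        simp at this
      have hone : ∀ a ∈ S, ∀ b ∈ S, ¬ G.Adj a b := by
        intro a ha b hb
        rw [← hS] at ha hb
        rw [Finset.mem_singleton.1 ha, Finset.mem_singleton.1 hb]
        exact G.irrefl
      refine ⟨D, hD, fun a ha b hb => hone a (hD ha) b (hD hb), fun w hw hwD => ?_, ?_⟩
      · obtain ⟨u, hu, ha, -⟩ := hp w (hw.resolve_left hwD)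
        exact ⟨u, hu, ha⟩
      · have h6 : (D \ Z).card ≤ D.card := Finset.card_le_card Finset.sdiff_subset
        omega
    -- the common part of a leaf deletion
    have step : ∀ l ∈ S, dg G S l = 1 → ∀ u, (∀ w ∈ S, G.Adj l w → w = u) →
        ∀ Z' : Finset V, (∀ v ∈ S.erase l, v ∉ D.erase l → v ∉ Z' → ∃ w ∈ D.erase l, G.Adj w v) →
        ∃ I ⊆ S.erase l, (∀ a ∈ I, ∀ b ∈ I, ¬ G.Adj a b) ∧
          (∀ v, v ∈ D ∨ v ∈ N → v ≠ l → (v = u → v ∈ D) → v ∉ I → ∃ w ∈ I, G.Adj w v) ∧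
          6 * (I \ Z').card ≤ 6 * (D.erase l).card + (∑ v ∈ S, dg G S v - 2 * S.card) := by
      intro l hl hl1 u hu Z' hZ'
      obtain ⟨I, h1, h3, h4, h5⟩ := ih (S.erase l) (Finset.erase_ssubset hl) (D.erase l)
        ((N.erase l).erase u) Z' (cut_erase G S l u hl hu hc) (Finset.erase_subset_erase _ hD)
        ((Finset.erase_subset _ _).trans (Finset.erase_subset_erase _ hN)) (by
          intro v hv
          obtain ⟨hvu, hv⟩ := Finset.mem_erase.1 hv
          obtain ⟨hvl, hv⟩ := Finset.mem_erase.1 hv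
          obtain ⟨w, hw, ha, hd⟩ := hp v hv
          have hnl : ¬ G.Adj v l := fun h => hvu (hu v (hN hv) h.symm)
          refine ⟨w, Finset.mem_erase.2 ⟨fun h => hnl (h ▸ ha.symm), hw⟩, ha, ?_⟩
          have e1 := dg_erase G S l hl v
          have e2 := dg_erase G S l hl w
          rw [if_neg hnl] at e1
          omega) hZ'
      refine ⟨I, h1, h3, fun v hv hvl hvu hvI => h4 v ?_ hvI, ?_⟩
      · by_cases h : v ∈ D
        · exact Or.inl (Finset.mem_erase.2 ⟨hvl, h⟩)
        · exact Or.inr (Finset.mem_erase.2 ⟨fun e => h (hvu e),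
            Finset.mem_erase.2 ⟨hvl, hv.resolve_left h⟩⟩)
      · have e1 := sum_dg_erase G S l hl
        have e2 := Finset.card_erase_add_one hl
        omega
    -- putting the leaf back
    have back : ∀ l ∈ S, ∀ u, G.Adj l u → (∀ w ∈ S, G.Adj l w → w = u) →
        ∀ I ⊆ S.erase l, (∀ a ∈ I, ∀ b ∈ I, ¬ G.Adj a b) →
        (∀ v, v ∈ D ∨ v ∈ N → v ≠ l → (v = u → v ∈ D) → v ∉ I → ∃ w ∈ I, G.Adj w v) →
        ∃ J ⊆ S, (∀ a ∈ J, ∀ b ∈ J, ¬ G.Adj a b) ∧
          (∀ v, v ∈ D ∨ v ∈ N → v ∉ J → ∃ w ∈ J, G.Adj w v) ∧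
          ((J = I ∧ u ∈ I) ∨ (J = insert l I ∧ u ∉ I)) := by
      intro l hl u hlu hu I h1 h3 h4
      have h1' : I ⊆ S := h1.trans (Finset.erase_subset _ _)
      by_cases huI : u ∈ I
      · refine ⟨I, h1', h3, fun v hv hvI => ?_, Or.inl ⟨rfl, huI⟩⟩
        by_cases hvl : v = l
        · exact ⟨u, huI, hvl ▸ hlu.symm⟩
        · exact h4 v hv hvl (fun e => absurd (e ▸ huI) hvI) hvI
      · refine ⟨insert l I, Finset.insert_subset hl h1', ?_, fun v hv hvI => ?_,
          Or.inr ⟨rfl, huI⟩⟩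
        · intro a ha b hb hab
          rcases Finset.mem_insert.1 ha with ha | ha
          · rcases Finset.mem_insert.1 hb with hb | hb
            · rw [ha, hb] at hab; exact G.irrefl hab
            · exact huI ((hu b (h1' hb) (ha ▸ hab)) ▸ hb)
          · rcases Finset.mem_insert.1 hb with hb | hb
            · exact huI ((hu a (h1' ha) (hb ▸ hab.symm)) ▸ ha)
            · exact h3 a ha b hb hab
        · by_cases hvu : v = u
          · exact ⟨l, Finset.mem_insert_self _ _, hvu ▸ hlu⟩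
          · obtain ⟨w, hw, ha⟩ := h4 v hv (fun e => hvI (e ▸ Finset.mem_insert_self _ _))
              (fun e => absurd e hvu) (fun h => hvI (Finset.mem_insert_of_mem h))
            exact ⟨w, Finset.mem_insert_of_mem hw, ha⟩
    by_cases hA : ∃ l ∈ D, dg G S l = 1
    · obtain ⟨l, hlD, hl1⟩ := hA
      obtain ⟨u, huS, hlu, hu⟩ := leaf_nbr G S l hl1
      obtain ⟨I, h1, h3, h4, h5⟩ := step l (hD hlD) hl1 u hu (insert u Z) (by
        intro v hv hvD hvZ
        obtain ⟨hvl, hv⟩ := Finset.mem_erase.1 hv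
        obtain ⟨w, hw, ha⟩ := hF v hv (fun h => hvD (Finset.mem_erase.2 ⟨hvl, h⟩))
          (fun h => hvZ (Finset.mem_insert_of_mem h))
        refine ⟨w, Finset.mem_erase.2 ⟨fun e => hvZ ?_, hw⟩, ha⟩
        rw [hu v hv (e ▸ ha)]
        exact Finset.mem_insert_self _ _)
      obtain ⟨J, j1, j2, j3, j4⟩ := back l (hD hlD) u hlu hu I h1 h3 h4
      refine ⟨J, j1, j2, j3, ?_⟩
      have e1 := Finset.card_erase_add_one hlD
      have e2 : (J \ Z).card ≤ (I \ insert u Z).card + 1 := by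
        rcases j4 with ⟨rfl, -⟩ | ⟨rfl, huI⟩
        · refine le_trans (Finset.card_le_card ?_) (Finset.card_insert_le u _)
          intro a ha
          simp only [Finset.mem_sdiff, Finset.mem_insert] at ha ⊢
          tauto
        · refine le_trans (Finset.card_le_card ?_) (Finset.card_insert_le l _)
          intro a ha
          simp only [Finset.mem_sdiff, Finset.mem_insert] at ha ⊢
          rcases ha with ⟨h | h, hz⟩
          · exact Or.inl h
          · exact Or.inr ⟨h, fun h' => h'.elim (fun e => huI (e ▸ h)) hz⟩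
      omega
    · push Not at h2 h0 hA
      obtain ⟨l, hl, hl2⟩ := h2
      have hl1 : dg G S l = 1 := by
        have := h0 l hl
        omega
      have hlD : l ∉ D := fun h => hA l h hl1
      have hlN : l ∉ N := by
        intro h
        obtain ⟨w, hw, -, hd⟩ := hp l h
        have e1 := h0 w (hD hw)
        have e2 := hA w hw
        omega
      obtain ⟨u, huS, hlu, hu⟩ := leaf_nbr G S l hl1
      have hDe : D.erase l = D := Finset.erase_eq_of_notMem hlD
      obtain ⟨I, h1, h3, h4, h5⟩ := step l hl hl1 u hu Z (by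
        rw [hDe]
        intro v hv
        exact hF v (Finset.mem_of_mem_erase hv))
      rw [hDe] at h5
      by_cases hlZ : l ∈ Z
      · obtain ⟨J, j1, j2, j3, j4⟩ := back l hl u hlu hu I h1 h3 h4
        refine ⟨J, j1, j2, j3, ?_⟩
        have e2 : (J \ Z).card ≤ (I \ Z).card := by
          rcases j4 with ⟨rfl, -⟩ | ⟨rfl, -⟩
          · exact le_rfl
          · rw [Finset.insert_sdiff_of_mem _ hlZ]
        omega
      · obtain ⟨w, hw, ha⟩ := hF l hl hlD hlZ
        have huD : u ∈ D := (hu w (hD hw) ha.symm) ▸ hw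
        refine ⟨I, h1.trans (Finset.erase_subset _ _), h3, fun v hv hvI => ?_, h5⟩
        refine h4 v hv (fun e => ?_) (fun e => e ▸ huD) hvI
        rw [e] at hv
        exact hv.elim hlD hlN

end Pool.Agent.Lib.MP_2d208d_co.H89
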